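import Mathlib

namespace Pool.Agent.Results.MP_9149b8_co.Strict

open scoped RealInnerProductSpace

/-- worst-case coherence -/
noncomputable def coh {N M : ℕ} (F : Fin N → EuclideanSpace ℝ (Fin M)) : ℝ :=
  ⨆ p : {p : Fin N × Fin N // p.1 ≠ p.2}, |⟪F p.1.1, F p.1.2⟫|

/-- optimal coherence -/
noncomputable def mu (N M : ℕ) : ℝ :=
  sInf {c | ∃ F : Fin N → EuclideanSpace ℝ (Fin M), (∀ i, ‖F i‖ = 1) ∧ coh F = c}

lemma le_coh {N M : ℕ} (F : Fin N → EuclideanSpace ℝ (Fin M)) {i j : Fin N} (h : i ≠ j) :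
    |⟪F i, F j⟫| ≤ coh F :=
  le_ciSup (f := fun p : {p : Fin N × Fin N // p.1 ≠ p.2} => |⟪F p.1.1, F p.1.2⟫|)
    (Finite.bddAbove_range _) ⟨(i, j), h⟩

lemma coh_nonneg {N M : ℕ} (F : Fin N → EuclideanSpace ℝ (Fin M)) : 0 ≤ coh F :=
  Real.iSup_nonneg fun _ => abs_nonneg _

lemma low {N M : ℕ} (h : M < N) (F : Fin N → EuclideanSpace ℝ (Fin M)) (hF : ∀ i, ‖F i‖ = 1) :
    1 ≤ N * coh F := by
  have : ¬ LinearIndependent ℝ F := fun hl => by
    have := hl.fintype_card_le_finrank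
    simp at this; omega
  obtain ⟨g, hg, i, hi⟩ := Fintype.not_linearIndependent_iff.mp this
  obtain ⟨k, -, hk⟩ := Finset.exists_max_image Finset.univ (fun i => |g i|) ⟨i, Finset.mem_univ _⟩
  have pos : 0 < |g k| := (abs_pos.mpr hi).trans_le (hk i (Finset.mem_univ _))
  have e := congrArg (fun v => ⟪F k, v⟫) hg
  simp only [inner_sum, inner_smul_right, inner_zero_right] at e
  rw [← Finset.add_sum_erase _ _ (Finset.mem_univ k), real_inner_self_eq_norm_sq, hF, one_pow,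
    mul_one, add_eq_zero_iff_eq_neg] at e
  have : |g k| ≤ N * (|g k| * coh F) := by
    calc |g k| = |∑ j ∈ Finset.univ.erase k, g j * ⟪F k, F j⟫| := by rw [e, abs_neg]
      _ ≤ ∑ j ∈ Finset.univ.erase k, |g j * ⟪F k, F j⟫| := Finset.abs_sum_le_sum_abs _ _
      _ ≤ (Finset.univ.erase k).card • (|g k| * coh F) := Finset.sum_le_card_nsmul _ _ _ fun j hj => by
          rw [abs_mul]
          exact mul_le_mul (hk j (Finset.mem_univ _)) (le_coh F (Finset.ne_of_mem_erase hj).symm)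
            (abs_nonneg _) pos.le
      _ ≤ N * (|g k| * coh F) := by
          rw [nsmul_eq_mul]
          refine mul_le_mul_of_nonneg_right ?_ (mul_nonneg pos.le (coh_nonneg F))
          exact_mod_cast Finset.card_erase_le.trans (by simp)
  nlinarith

lemma ineq (μ ε δ s t x : ℝ) (hx : |x| ≤ μ) (h : 3 * ε ≤ μ) (t0 : 0 ≤ t)
    (s0 : 0 ≤ s) (s1 : s ≤ 1) (ts : t ≤ ε * s) (hδ : δ ≤ s ^ 2) :
    (x + s * t) ^ 2 ≤ (1 - δ / 9) * μ ^ 2 * ((1 + s ^ 2) * (1 + t ^ 2)) := by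
  have m0 : 0 ≤ μ := (abs_nonneg _).trans hx
  have a1 : s * t ≤ μ / 3 * s ^ 2 := by nlinarith [mul_nonneg s0 s0]
  have a0 : 0 ≤ s * t := mul_nonneg s0 t0
  have ss : s ^ 2 ≤ 1 := by nlinarith
  have a2 : (x + s * t) ^ 2 ≤ (μ + μ / 3 * s ^ 2) ^ 2 :=
    sq_le_sq' (by nlinarith [(abs_le.mp hx).1, sq_nonneg s]) (by linarith [(abs_le.mp hx).2])
  have a3 : (1 + s ^ 2 / 3) ^ 2 ≤ (1 - δ / 9) * (1 + s ^ 2) := by nlinarith [sq_nonneg s]
  have a4 : (1 - δ / 9) * (1 + s ^ 2) ≤ (1 - δ / 9) * ((1 + s ^ 2) * (1 + t ^ 2)) :=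
    mul_le_mul_of_nonneg_left (by nlinarith [sq_nonneg s, sq_nonneg t]) (by linarith)
  nlinarith [mul_le_mul_of_nonneg_left (a3.trans a4) (sq_nonneg μ)]

/-- The optimal coherence strictly decreases with the dimension. -/
theorem result (N M : ℕ) (hN : 2 ≤ N) (h1 : 1 ≤ M) (hM : M ≤ N - 1) : mu N (M + 1) < mu N M := by
  have N0 : (2 : ℝ) ≤ N := by exact_mod_cast hN
  set ε : ℝ := 1 / (3 * N) with hε
  have e0 : 0 < ε := by positivity
  have e1 : ε ≤ 1 := by rw [hε, div_le_one (by positivity)]; linarith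
  set c := √(1 - (ε ^ N) ^ 2 / 9) with hc
  have d1 : (ε ^ N) ^ 2 ≤ 1 := pow_le_one₀ (by positivity) (pow_le_one₀ e0.le e1)
  have c1 : c < 1 := by rw [hc, Real.sqrt_lt' one_pos]; have : 0 < (ε ^ N) ^ 2 := by positivity
                        linarith
  have c0 : 0 < c := Real.sqrt_pos.mpr (by linarith)
  have ne : {c | ∃ F : Fin N → EuclideanSpace ℝ (Fin M), (∀ i, ‖F i‖ = 1) ∧ coh F = c}.Nonempty :=
    ⟨_, fun _ => EuclideanSpace.single ⟨0, h1⟩ 1, by simp, rfl⟩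
  have l3 : ∀ F : Fin N → EuclideanSpace ℝ (Fin M), (∀ i, ‖F i‖ = 1) → 3 * ε ≤ coh F :=
    fun F hF => by
      have := low (by omega) F hF
      rw [hε, show 3 * (1 / (3 * (N : ℝ))) = 1 / N by field_simp, div_le_iff₀ (by positivity)]
      linarith
  have p : 3 * ε ≤ mu N M := le_csInf ne (by rintro _ ⟨F, hF, rfl⟩; exact l3 F hF)
  have q : mu N (M + 1) / c ≤ mu N M := le_csInf ne (by
    rintro _ ⟨F, hF, rfl⟩
    let v : Fin N → EuclideanSpace ℝ (Fin (M + 1)) := fun i =>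
      WithLp.toLp 2 (Fin.cons (ε ^ (i : ℕ)) (F i))
    have hv : ∀ i j, ⟪v i, v j⟫ = ⟪F i, F j⟫ + ε ^ (i : ℕ) * ε ^ (j : ℕ) := fun i j => by
      simp [v, PiLp.inner_apply, Fin.sum_univ_succ]; ring
    have nv : ∀ i, ‖v i‖ ^ 2 = 1 + (ε ^ (i : ℕ)) ^ 2 := fun i => by
      rw [← real_inner_self_eq_norm_sq, hv, real_inner_self_eq_norm_sq, hF]; ring
    have v0 : ∀ i, 0 < ‖v i‖ := fun i => by
      have := nv i
      have := norm_nonneg (v i)
      by_contra h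
      have : ‖v i‖ = 0 := by linarith
      nlinarith [sq_nonneg (ε ^ (i : ℕ))]
    have key : ∀ i j : Fin N, i < j → |⟪v i, v j⟫| ≤ c * coh F * (‖v i‖ * ‖v j‖) := fun i j h => by
      refine abs_le_of_sq_le_sq' ?_ (by have := coh_nonneg F; positivity) |> abs_le.mpr
      rw [mul_pow, mul_pow, mul_pow, nv, nv, hv, hc, Real.sq_sqrt (by linarith)]
      refine ineq _ ε _ _ _ _ (le_coh F h.ne) (l3 F hF) (by positivity) (by positivity)
        (pow_le_one₀ e0.le e1) ?_ ?_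
      · rw [← pow_succ']; exact pow_le_pow_of_le_one e0.le e1 h
      · exact pow_le_pow_left₀ (by positivity) (pow_le_pow_of_le_one e0.le e1 i.2.le) 2
    rw [div_le_iff₀' c0]
    have : mu N (M + 1) ≤ coh fun i => ‖v i‖⁻¹ • v i :=
      csInf_le ⟨0, by rintro _ ⟨G, -, rfl⟩; exact coh_nonneg G⟩
        ⟨_, fun i => norm_smul_inv_norm (𝕜 := ℝ) (norm_pos_iff.mp (v0 i)), rfl⟩
    refine this.trans (Real.iSup_le ?_ (mul_nonneg c0.le (coh_nonneg F)))
    rintro ⟨⟨i, j⟩, h⟩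
    have hi := v0 i
    have hj := v0 j
    simp only [inner_smul_left, inner_smul_right, abs_mul, conj_trivial, abs_inv, abs_norm]
    rw [inv_mul_le_iff₀ hj, inv_mul_le_iff₀ hi]
    rcases lt_or_gt_of_ne h with h | h
    · linarith [key i j h]
    · rw [real_inner_comm]; linarith [key j i h])
  rw [div_le_iff₀ c0] at q
  nlinarith

end Pool.Agent.Results.MP_9149b8_co.Strict
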